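import Mathlib

open CategoryTheory TensorProduct

universe u

namespace Pool.Agent.Results.MP_52d248_al.Exists

/-- `1 → N → E → G → 1` is a short exact sequence of groups. -/
def IsSES {N E G : GrpCat.{u}} (i : N ⟶ E) (p : E ⟶ G) : Prop :=
  Function.Injective i.hom ∧ i.hom.range = p.hom.ker ∧ Function.Surjective p.hom

/-- `(L, η)` is a localization functor. -/
def IsLocalizationFunctor (L : GrpCat.{u} ⥤ GrpCat.{u}) (η : 𝟭 GrpCat.{u} ⟶ L) : Prop :=
  ∀ G : GrpCat.{u}, L.map (η.app G) = η.app (L.obj G) ∧ IsIso (η.app (L.obj G))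

/-- `(L, η)` is an epireflection. -/
def IsEpireflection (L : GrpCat.{u} ⥤ GrpCat.{u}) (η : 𝟭 GrpCat.{u} ⟶ L) : Prop :=
  ∀ G : GrpCat.{u}, Function.Surjective (η.app G).hom

/-- The fibre product `E ×_G H` as a subgroup of `E × H`. -/
def fib {E G H : GrpCat.{u}} (p : E ⟶ G) (f : H ⟶ G) : Subgroup (E × H) :=
  (p.hom.comp (MonoidHom.fst E H)).eqLocus (f.hom.comp (MonoidHom.snd E H))

/-- The projection `E ×_G H → H`. -/
def fibOut {E G H : GrpCat.{u}} (p : E ⟶ G) (f : H ⟶ G) : GrpCat.of (fib p f) ⟶ H :=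
  GrpCat.ofHom ((MonoidHom.snd E H).comp (fib p f).subtype)

/-- `L` is conditionally flat: the pull-back of an `L`-flat extension is `L`-flat; `j` is the
map `n ↦ (i n, 1)` from `N` to the fibre product. -/
def CondFlat (L : GrpCat.{u} ⥤ GrpCat.{u}) : Prop :=
  ∀ (N E G H : GrpCat.{u}) (i : N ⟶ E) (p : E ⟶ G) (f : H ⟶ G)
    (j : N ⟶ GrpCat.of (fib p f)), (∀ n : N, (j.hom n).1 = (i.hom n, 1)) →
    IsSES i p → IsSES (L.map i) (L.map p) → IsSES (L.map j) (L.map (fibOut p f))

abbrev Ab (G : Type u) [Group G] := Additive (Abelianization G)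

noncomputable def abMap {G H : Type u} [Group G] [Group H] (f : G →* H) : Ab G →ₗ[ℤ] Ab H :=
  (MonoidHom.toAdditive (Abelianization.map f)).toIntLinearMap

lemma abMap_of {G H : Type u} [Group G] [Group H] (f : G →* H) (g : G) :
    abMap f (Additive.ofMul (Abelianization.of g)) = Additive.ofMul (Abelianization.of (f g)) := by
  simp [abMap]

lemma ab_surj {G : Type u} [Group G] (a : Ab G) :
    ∃ g : G, a = Additive.ofMul (Abelianization.of g) := by
  obtain ⟨g, hg⟩ := QuotientGroup.mk_surjective (s := commutator G) (Additive.toMul a)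
  exact ⟨g, by
    have : Abelianization.of g = Additive.toMul a := hg
    rw [this]; rfl⟩

abbrev LQ (G : Type u) [Group G] := Multiplicative (ℚ ⊗[ℤ] Ab G)

noncomputable def lqMap {G H : Type u} [Group G] [Group H] (f : G →* H) : LQ G →* LQ H :=
  AddMonoidHom.toMultiplicative ((abMap f).lTensor ℚ).toAddMonoidHom

lemma lqMap_apply {G H : Type u} [Group G] [Group H] (f : G →* H) (x : ℚ ⊗[ℤ] Ab G) :
    lqMap f (Multiplicative.ofAdd x) = Multiplicative.ofAdd ((abMap f).lTensor ℚ x) := rfl

lemma abMap_id {G : Type u} [Group G] : abMap (MonoidHom.id G) = LinearMap.id := by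
  ext a
  obtain ⟨g, rfl⟩ := ab_surj a
  rw [abMap_of]; rfl

lemma abMap_comp {G H K : Type u} [Group G] [Group H] [Group K] (f : G →* H) (g : H →* K) :
    abMap (g.comp f) = (abMap g).comp (abMap f) := by
  ext a
  obtain ⟨x, rfl⟩ := ab_surj a
  rw [LinearMap.comp_apply, abMap_of, abMap_of, abMap_of]; rfl

lemma lqMap_comp {G H K : Type u} [Group G] [Group H] [Group K] (f : G →* H) (g : H →* K) :
    lqMap (g.comp f) = (lqMap g).comp (lqMap f) := by
  refine MonoidHom.ext fun x => ?_
  change lqMap (g.comp f) (Multiplicative.ofAdd x.toAdd) =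
    lqMap g (lqMap f (Multiplicative.ofAdd x.toAdd))
  rw [lqMap_apply, lqMap_apply, lqMap_apply, abMap_comp, LinearMap.lTensor_comp]; rfl

lemma lqMap_id {G : Type u} [Group G] : lqMap (MonoidHom.id G) = MonoidHom.id (LQ G) := by
  refine MonoidHom.ext fun x => ?_
  change lqMap (MonoidHom.id G) (Multiplicative.ofAdd (Multiplicative.toAdd x)) = x
  rw [lqMap_apply, abMap_id, LinearMap.lTensor_id]; rfl

noncomputable def L : GrpCat.{u} ⥤ GrpCat.{u} where
  obj G := GrpCat.of (LQ G)
  map f := GrpCat.ofHom (lqMap f.hom)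
  map_id G := by
    rw [GrpCat.hom_id, lqMap_id]; rfl
  map_comp f g := by
    rw [GrpCat.hom_comp, lqMap_comp]; rfl

noncomputable def eta (G : Type u) [Group G] : G →* LQ G where
  toFun g := Multiplicative.ofAdd ((1 : ℚ) ⊗ₜ[ℤ] Additive.ofMul (Abelianization.of g))
  map_one' := by simp
  map_mul' a b := by
    rw [map_mul, ofMul_mul, tmul_add, ofAdd_add]

lemma eta_apply (G : Type u) [Group G] (g : G) : eta G g =
  Multiplicative.ofAdd ((1 : ℚ) ⊗ₜ[ℤ] Additive.ofMul (Abelianization.of g)) := rfl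

noncomputable def η : 𝟭 GrpCat.{u} ⟶ L where
  app G := GrpCat.ofHom (eta G)
  naturality G H f := by
    ext x
    change eta H (f.hom x) = lqMap f.hom (eta G x)
    rw [eta_apply, eta_apply, lqMap_apply, LinearMap.lTensor_tmul, abMap_of]

/-- `η` of `LQ G`, additively. -/
noncomputable def etaA (G : Type u) [Group G] : ℚ ⊗[ℤ] Ab G →+ ℚ ⊗[ℤ] Ab (LQ G) :=
  AddMonoidHom.toMultiplicative.symm (eta (LQ G))

lemma etaA_apply (G : Type u) [Group G] (x : ℚ ⊗[ℤ] Ab G) : etaA G x =
    (1 : ℚ) ⊗ₜ[ℤ] Additive.ofMul (Abelianization.of (Multiplicative.ofAdd x)) := rfl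

lemma key (G : Type u) [Group G] (x : ℚ ⊗[ℤ] Ab G) :
    (abMap (eta G)).lTensor ℚ x = etaA G x := by
  induction x using TensorProduct.induction_on with
  | zero => simp
  | add a b ha hb => rw [map_add, map_add, ha, hb]
  | tmul q a =>
    obtain ⟨g, rfl⟩ := ab_surj a
    have h1 : q ⊗ₜ[ℤ] (Additive.ofMul (Abelianization.of g) : Ab G) =
        q • ((1 : ℚ) ⊗ₜ[ℤ] (Additive.ofMul (Abelianization.of g) : Ab G)) := by
      rw [smul_tmul', smul_eq_mul, mul_one]
    rw [LinearMap.lTensor_tmul, abMap_of, h1, map_rat_smul, etaA_apply, smul_tmul', smul_eq_mul,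
      mul_one, eta_apply]

noncomputable def back (G : Type u) [Group G] : Ab (LQ G) →ₗ[ℤ] ℚ ⊗[ℤ] Ab G :=
  (MonoidHom.toAdditiveLeft (Abelianization.lift (MonoidHom.id (LQ G)))).toIntLinearMap

lemma back_of (G : Type u) [Group G] (x : ℚ ⊗[ℤ] Ab G) :
    back G (Additive.ofMul (Abelianization.of (Multiplicative.ofAdd x))) = x := rfl

noncomputable def inv (G : Type u) [Group G] : ℚ ⊗[ℤ] Ab (LQ G) →ₗ[ℚ] ℚ ⊗[ℤ] Ab G :=
  (back G).liftBaseChange ℚ

lemma etaA_bij (G : Type u) [Group G] : Function.Bijective (etaA G) := by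
  constructor
  · apply Function.LeftInverse.injective (g := inv G)
    intro x
    rw [etaA_apply, inv, LinearMap.liftBaseChange_tmul, back_of, one_smul]
  · intro y
    induction y using TensorProduct.induction_on with
    | zero => exact ⟨0, map_zero _⟩
    | add a b ha hb =>
      obtain ⟨x, rfl⟩ := ha
      obtain ⟨y, rfl⟩ := hb
      exact ⟨x + y, map_add _ _ _⟩
    | tmul q a =>
      obtain ⟨g, rfl⟩ := ab_surj a
      refine ⟨q • g.toAdd, ?_⟩
      rw [map_rat_smul, etaA_apply, smul_tmul', smul_eq_mul, mul_one]; rfl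

lemma ab_exact {N E G : Type u} [Group N] [Group E] [Group G] (i : N →* E) (p : E →* G)
    (h : i.range = p.ker) (hp : Function.Surjective p) :
    Function.Exact (abMap i) (abMap p) ∧ Function.Surjective (abMap p) := by
  constructor
  · intro a
    obtain ⟨e, rfl⟩ := ab_surj a
    rw [abMap_of]
    constructor
    · intro h0
      have h1 : Abelianization.of (p e) = 1 := h0
      have h2 : p e ∈ commutator G := by
        rw [← Abelianization.ker_of]; exact h1
      have h3 : (commutator E).map p = commutator G := by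
        rw [commutator_def, commutator_def, Subgroup.map_commutator,
          Subgroup.map_top_of_surjective p hp]
      rw [← h3] at h2
      obtain ⟨c, hc, hce⟩ := h2
      have h4 : e * c⁻¹ ∈ i.range := by
        rw [h, MonoidHom.mem_ker, map_mul, map_inv, hce, mul_inv_cancel]
      obtain ⟨n, hn⟩ := h4
      refine ⟨Additive.ofMul (Abelianization.of n), ?_⟩
      have h5 : Abelianization.of c = 1 := by
        rw [← MonoidHom.mem_ker, Abelianization.ker_of]; exact hc
      rw [abMap_of, hn, map_mul, map_inv, h5, inv_one, mul_one]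
    · rintro ⟨b, hb⟩
      obtain ⟨n, rfl⟩ := ab_surj b
      have h6 : p (i n) = 1 := by
        rw [← MonoidHom.mem_ker, ← h]; exact ⟨n, rfl⟩
      rw [← abMap_of, ← hb, abMap_of, abMap_of, h6, map_one]; rfl
  · intro a
    obtain ⟨g, rfl⟩ := ab_surj a
    obtain ⟨e, rfl⟩ := hp g
    exact ⟨_, abMap_of p e⟩

lemma lq_exact {N E G : Type u} [Group N] [Group E] [Group G] (i : N →* E) (p : E →* G)
    (h : i.range = p.ker) (hp : Function.Surjective p) :
    (lqMap i).range = (lqMap p).ker ∧ Function.Surjective (lqMap p) := by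
  obtain ⟨h1, h2⟩ := ab_exact i p h hp
  have h3 := lTensor_exact ℚ h1 h2
  have h4 := LinearMap.lTensor_surjective ℚ h2
  constructor
  · ext x
    have := h3 x.toAdd
    constructor
    · rintro ⟨y, hy⟩
      exact congrArg Multiplicative.ofAdd (this.2 ⟨y.toAdd, congrArg Multiplicative.toAdd hy⟩)
    · intro hx
      obtain ⟨y, hy⟩ := this.1 (congrArg Multiplicative.toAdd (MonoidHom.mem_ker.1 hx))
      exact ⟨Multiplicative.ofAdd y, congrArg Multiplicative.ofAdd hy⟩
  · intro x
    obtain ⟨y, hy⟩ := h4 x.toAdd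
    exact ⟨Multiplicative.ofAdd y, congrArg Multiplicative.ofAdd hy⟩

theorem result : ∃ (L : GrpCat.{u} ⥤ GrpCat.{u}) (η : 𝟭 GrpCat.{u} ⟶ L),
    IsLocalizationFunctor L η ∧ CondFlat L ∧ ¬ IsEpireflection L η := by
  refine ⟨L, η, ?_, ?_, ?_⟩
  · intro G
    constructor
    · ext x
      exact congrArg Multiplicative.ofAdd (key G (Multiplicative.toAdd x))
    · have hb : Function.Bijective (eta (LQ G)) := etaA_bij G
      exact (MulEquiv.toGrpIso (X := GrpCat.of (LQ G)) (Y := GrpCat.of (LQ (LQ G)))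
        (MulEquiv.ofBijective (eta (LQ G)) hb)).isIso_hom
  · intro N E G H i p f j hj hs hf
    have hr : j.hom.range = (fibOut p f).hom.ker := by
      ext x
      constructor
      · rintro ⟨n, rfl⟩
        change (j.hom n).1.2 = 1
        rw [hj]
      · intro hx
        have hx2 : x.1.2 = 1 := hx
        have hx1 : p.hom x.1.1 = f.hom x.1.2 := x.2
        rw [hx2, map_one, ← MonoidHom.mem_ker, ← hs.2.1] at hx1
        obtain ⟨n, hn⟩ := hx1
        refine ⟨n, Subtype.ext ?_⟩
        rw [hj, hn, ← hx2]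
    have hsu : Function.Surjective (fibOut p f).hom := by
      intro h
      obtain ⟨e, he⟩ := hs.2.2 (f.hom h)
      exact ⟨⟨(e, h), he⟩, rfl⟩
    obtain ⟨h1, h2⟩ := lq_exact j.hom (fibOut p f).hom hr hsu
    refine ⟨?_, h1, h2⟩
    have hc : i.hom = ((MonoidHom.fst E H).comp (fib p f).subtype).comp j.hom := by
      ext n
      change i.hom n = (j.hom n).1.1
      rw [hj]
    have hi : Function.Injective (lqMap i.hom) := hf.1
    rw [hc, lqMap_comp] at hi
    exact Function.Injective.of_comp hi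
  · intro h
    let Z : Type u := Multiplicative (ULift.{u} ℤ)
    have h1 : Function.Surjective (eta Z) := h (GrpCat.of Z)
    let φ : Ab Z →ₗ[ℤ] ℚ :=
      (MonoidHom.toAdditiveLeft (Abelianization.lift (AddMonoidHom.toMultiplicative
        ((Int.castAddHom ℚ).comp (AddEquiv.ulift (α := ℤ)).toAddMonoidHom)))).toIntLinearMap
    have hφ : ∀ z : Z, φ (Additive.ofMul (Abelianization.of z)) = ((z.toAdd.down : ℤ) : ℚ) :=
      fun z => rfl
    obtain ⟨z, hz⟩ := h1 (Multiplicative.ofAdd ((1 / 2 : ℚ) ⊗ₜ[ℤ]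
      Additive.ofMul (Abelianization.of (Multiplicative.ofAdd (ULift.up (1 : ℤ)) : Z))))
    rw [eta_apply] at hz
    have h2 := congrArg (fun t => φ.liftBaseChange ℚ (Multiplicative.toAdd t)) hz
    simp only [toAdd_ofAdd, LinearMap.liftBaseChange_tmul, hφ, smul_eq_mul, one_mul] at h2
    have h3 : (2 * z.toAdd.down : ℤ) = 1 := by
      have : ((2 * z.toAdd.down : ℤ) : ℚ) = 1 := by
        push_cast
        rw [h2]; norm_num
      exact_mod_cast this
    omega

end Pool.Agent.Results.MP_52d248_al.Exists
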