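import Mathlib

namespace Pool.Agent.Results.MP_52d248_al.Yes

open CategoryTheory TensorProduct

/-- `1 → N → E → G → 1` is a short exact sequence of groups -/
def Ext {N E G : Type} [Group N] [Group E] [Group G] (i : N →* E) (p : E →* G) : Prop :=
  Function.Injective i ∧ i.range = p.ker ∧ Function.Surjective p

/-- the extension stays short exact after applying `L` -/
def Flat (L : GrpCat.{0} ⥤ GrpCat.{0}) {N E G : Type} [Group N] [Group E] [Group G]
    (i : N →* E) (p : E →* G) : Prop :=
  Ext (L.map (GrpCat.ofHom i)).hom (L.map (GrpCat.ofHom p)).hom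

/-- the fibre product `E ×_G H` -/
def Pull {E G H : Type} [Group E] [Group G] [Group H] (p : E →* G) (f : H →* G) :
    Subgroup (E × H) := (p.comp (MonoidHom.fst E H)).eqLocus (f.comp (MonoidHom.snd E H))

abbrev A (G : Type) [Group G] := Additive (Abelianization G)

noncomputable def am {G H : Type} [Group G] [Group H] (f : G →* H) : A G →ₗ[ℤ] A H :=
  (MonoidHom.toAdditive (Abelianization.map f)).toIntLinearMap

abbrev R (G : Type) [Group G] := Multiplicative (ℚ ⊗[ℤ] A G)

noncomputable def rm {G H : Type} [Group G] [Group H] (f : G →* H) : R G →* R H :=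
  AddMonoidHom.toMultiplicative ((am f).lTensor ℚ).toAddMonoidHom

theorem rm_comp {G H K : Type} [Group G] [Group H] [Group K] (f : G →* H) (g : H →* K) :
    rm (g.comp f) = (rm g).comp (rm f) := by
  have : am (g.comp f) = am g ∘ₗ am f := LinearMap.ext fun x =>
    DFunLike.congr_fun (Abelianization.map_comp f g).symm x.toMul
  rw [rm, this, LinearMap.lTensor_comp]; rfl

noncomputable def L : GrpCat.{0} ⥤ GrpCat.{0} where
  obj G := GrpCat.of (R G)
  map f := GrpCat.ofHom (rm f.hom)
  map_id G := by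
    have : am (MonoidHom.id G) = LinearMap.id := LinearMap.ext fun x =>
      DFunLike.congr_fun (Abelianization.map_id (G := G)) x.toMul
    rw [GrpCat.hom_id, rm, this, LinearMap.lTensor_id]; rfl
  map_comp f g := by rw [GrpCat.hom_comp, rm_comp]; rfl

noncomputable def et (G : Type) [Group G] : G →* R G :=
  (AddMonoidHom.toMultiplicativeRight (TensorProduct.mk ℤ ℚ (A G) 1).toAddMonoidHom).comp
    Abelianization.of

noncomputable def η : 𝟭 GrpCat.{0} ⟶ L where
  app G := GrpCat.ofHom (et G)
  naturality _ _ _ := rfl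

theorem et_smul (G : Type) [Group G] (q : ℚ) (y : ℚ ⊗[ℤ] A G) :
    et (R G) (.ofAdd (q • y)) = .ofAdd (q ⊗ₜ .ofMul (Abelianization.of (.ofAdd y))) := by
  have := map_rat_smul (AddMonoidHom.toMultiplicative.symm (et (R G))) q y
  refine (congrArg Multiplicative.ofAdd this).trans (congrArg Multiplicative.ofAdd ?_)
  exact (smul_tmul' q (1 : ℚ) _).trans (by rw [smul_eq_mul, mul_one])

theorem exact {N E G : Type} [Group N] [Group E] [Group G] {i : N →* E} {p : E →* G}
    (h : i.range = p.ker) (s : Function.Surjective p) :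
    (rm i).range = (rm p).ker ∧ Function.Surjective (rm p) := by
  have s' : Function.Surjective (am p) := fun y => by
    obtain ⟨g, hg⟩ := QuotientGroup.mk_surjective y.toMul
    obtain ⟨e, rfl⟩ := s g
    exact ⟨.ofMul (Abelianization.of e), hg⟩
  have e : Function.Exact (am i) (am p) := fun y => by
    obtain ⟨x, hx⟩ := QuotientGroup.mk_surjective y.toMul
    obtain rfl : y = .ofMul (Abelianization.of x) := hx.symm
    constructor
    · intro k
      have k : p x ∈ commutator G := (QuotientGroup.eq_one_iff _).1 k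
      rw [commutator_def, ← MonoidHom.range_eq_top.2 s, ← map_commutator_eq] at k
      obtain ⟨c, hc, k⟩ := k
      obtain ⟨n, hn⟩ : x * c⁻¹ ∈ i.range := by rw [h, MonoidHom.mem_ker, map_mul, map_inv, k]; simp
      refine ⟨.ofMul (Abelianization.of n), ?_⟩
      have : Abelianization.of c = 1 := (QuotientGroup.eq_one_iff _).2 hc
      exact (congrArg Abelianization.of hn).trans (by rw [map_mul, map_inv, this]; simp; rfl)
    · rintro ⟨n, hn⟩
      obtain ⟨m, hm⟩ := QuotientGroup.mk_surjective n.toMul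
      obtain rfl : n = .ofMul (Abelianization.of m) := hm.symm
      have : p (i m) = 1 := h.le ⟨m, rfl⟩
      rw [← hn]
      exact (congrArg Abelianization.of this).trans (map_one _)
  exact ⟨Subgroup.ext fun y => (lTensor_exact ℚ e s' y.toAdd).symm, (am p).lTensor_surjective ℚ s'⟩

theorem result : ∃ (L : GrpCat.{0} ⥤ GrpCat.{0}) (η : 𝟭 GrpCat.{0} ⟶ L),
    (∀ G, L.map (η.app G) = η.app (L.obj G) ∧ IsIso (η.app (L.obj G))) ∧
    (∀ (N E G H : Type) [Group N] [Group E] [Group G] [Group H] (i : N →* E) (p : E →* G)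
      (f : H →* G), Ext i p → Flat L i p → ∀ j : N →* Pull p f, (∀ n, (j n).1 = (i n, 1)) →
      Flat L j ((MonoidHom.snd E H).comp (Pull p f).subtype)) ∧
    ¬ ∀ G, Function.Surjective (η.app G).hom := by
  refine ⟨L, η, fun G => ⟨GrpCat.hom_ext (MonoidHom.ext fun y => ?_), ?_⟩,
    fun N E G H _ _ _ _ i p f h F j hj => ⟨?_, exact ?_ fun x => ?_⟩, fun h => ?_⟩
  · refine (fun y : ℚ ⊗[ℤ] A G => (?_ : rm (et G) (.ofAdd y) = et (R G) (.ofAdd y))) y
    induction y with
    | zero => simp
    | add a b ha hb => rw [ofAdd_add, map_mul, map_mul, ha, hb]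
    | tmul q x =>
      obtain ⟨g, hg⟩ := QuotientGroup.mk_surjective x.toMul
      obtain rfl : x = .ofMul (Abelianization.of g) := hg.symm
      rw [show q ⊗ₜ[ℤ] (Additive.ofMul (Abelianization.of g)) = q • (1 : ℚ) ⊗ₜ[ℤ] _ by
        rw [smul_tmul', smul_eq_mul, mul_one], et_smul]
      simp only [smul_tmul', smul_eq_mul, mul_one]
      rfl
  · refine (ConcreteCategory.isIso_iff_bijective _).2 ⟨?_, fun y => ?_⟩
    · let k : A (R G) →ₗ[ℤ] ℚ ⊗[ℤ] A G :=
        (MonoidHom.toAdditiveLeft (Abelianization.lift (MonoidHom.id (R G)))).toIntLinearMap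
      exact Function.LeftInverse.injective (g := fun y : R (R G) => (.ofAdd
        ((k.liftBaseChange ℚ) y.toAdd) : R G)) fun y => congrArg Multiplicative.ofAdd
          ((k.liftBaseChange_tmul ℚ 1 _).trans (one_smul _ _))
    · refine (fun y : ℚ ⊗[ℤ] A (R G) => (?_ : ∃ x, et (R G) x = .ofAdd y)) y
      induction y with
      | zero => exact ⟨1, map_one _⟩
      | add a b ha hb =>
        obtain ⟨x, hx⟩ := ha
        obtain ⟨z, hz⟩ := hb
        exact ⟨x * z, by rw [map_mul, hx, hz, ofAdd_add]⟩
      | tmul q x =>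
        obtain ⟨g, hg⟩ := QuotientGroup.mk_surjective x.toMul
        obtain rfl : x = .ofMul (Abelianization.of g) := hg.symm
        exact ⟨_, et_smul G q g.toAdd⟩
  · have : i = ((MonoidHom.fst E H).comp (Pull p f).subtype).comp j :=
      MonoidHom.ext fun n => (congrArg Prod.fst (hj n)).symm
    have k : Function.Injective (rm i) := F.1
    rw [this, rm_comp] at k
    exact Function.Injective.of_comp k
  · ext x
    constructor
    · rintro ⟨n, rfl⟩
      exact congrArg Prod.snd (hj n)
    · intro k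
      have k : x.1.2 = 1 := k
      have e : p x.1.1 = f x.1.2 := x.2
      obtain ⟨n, hn⟩ : x.1.1 ∈ i.range := by rw [h.2.1, MonoidHom.mem_ker, e, k, map_one]
      exact ⟨n, Subtype.ext ((hj n).trans (Prod.ext hn k.symm))⟩
  · obtain ⟨e, he⟩ := h.2.2 (f x)
    exact ⟨⟨(e, x), he⟩, rfl⟩
  · let k : A (Multiplicative ℤ) →ₗ[ℤ] ℚ := Algebra.linearMap ℤ ℚ ∘ₗ
      (MonoidHom.toAdditiveLeft (Abelianization.lift (MonoidHom.id _))).toIntLinearMap
    obtain ⟨n : Multiplicative ℤ, hn⟩ := h (GrpCat.of (Multiplicative ℤ))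
      (show R (Multiplicative ℤ) from .ofAdd ((1 / 2 : ℚ) ⊗ₜ .ofMul (Abelianization.of (Multiplicative.ofAdd (1 : ℤ)))))
    have := congrArg (fun y : R (Multiplicative ℤ) => k.liftBaseChange ℚ y.toAdd) hn
    have hk : ∀ m : Multiplicative ℤ, k (.ofMul (Abelianization.of m)) = (m.toAdd : ℤ) :=
      fun _ => rfl
    have e := ((k.liftBaseChange_tmul ℚ 1 (.ofMul (Abelianization.of n))).symm.trans this).trans
        (k.liftBaseChange_tmul ℚ (1 / 2) (.ofMul (Abelianization.of (Multiplicative.ofAdd (1 : ℤ)))))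
    rw [hk, hk, toAdd_ofAdd] at e
    have e : (2 * n.toAdd : ℤ) = (1 : ℚ) := by
      push_cast at e ⊢; rw [smul_eq_mul, smul_eq_mul] at e; linarith
    have : 2 * n.toAdd = 1 := by exact_mod_cast e
    omega

end Pool.Agent.Results.MP_52d248_al.Yes
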